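import Mathlib

/-!
# A compact linearly ordered space without the Blumberg property

We construct, with no axiom beyond the usual ones, a compact linearly ordered topological space `X`
and a function `f : X → ℝ` whose restriction to every dense subset of `X` is discontinuous.

The space is the space of lower sets (cuts) of the lexicographically ordered set `L` of all
functions `x : ω₁ → ℤ` whose support is a closed bounded subset of a fixed set `S ⊆ ω₁` such that
both `S` and its complement are stationary.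
-/

set_option linter.unusedSectionVars false

open Set Order Cardinal

namespace Pool.Agent.Results.MP_184855_gt.CompactLOTSNonBlumberg

/-! ### Part 1: a general criterion -/

theorem criterion {X T W : Type} [TopologicalSpace X]
    (r : T → T → Prop) (O : T → Set X) (hrefl : ∀ t, r t t)
    (hopen : ∀ t, IsOpen (O t)) (hne : ∀ t, (O t).Nonempty)
    (hmono : ∀ t t', r t t' → O t' ⊆ O t)
    (hpi : ∀ t (U : Set X), IsOpen U → (U ∩ O t).Nonempty → ∃ t', r t t' ∧ O t' ⊆ U)
    (hdist : ∀ E : ℕ → Set T, (∀ n t, ∃ t' ∈ E n, r t t') → ∃ t, ∀ n, ∃ t' ∈ E n, r t' t)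
    (ρ : X → W) (hρ : ∀ t α, ∃ t', r t t' ∧ ∀ x ∈ O t', ρ x ≠ α)
    (g : W → ℝ) (hg : Function.Injective g) (D : Set X) (hD : Dense D) :
    ¬ Continuous (fun x : D => g (ρ x)) := by
  intro hc
  have hU : ∀ q : ℚ, ∃ U : Set X, IsOpen U ∧ ∀ x ∈ D, x ∈ U ↔ g (ρ x) < q := by
    intro q
    have h1 : IsOpen ((fun x : D => g (ρ x)) ⁻¹' Iio (q : ℝ)) := isOpen_Iio.preimage hc
    obtain ⟨U, hU, hU'⟩ := isOpen_induced_iff.mp h1
    refine ⟨U, hU, fun x hx => ?_⟩
    have h2 := Set.ext_iff.mp hU' ⟨x, hx⟩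
    simpa using h2
  choose U hUo hU using hU
  obtain ⟨e, he⟩ := exists_surjective_nat ℚ
  obtain ⟨t, ht⟩ := hdist (fun n => {t | O t ⊆ U (e n) ∨ Disjoint (O t) (U (e n))}) (by
    intro n t
    by_cases h : (U (e n) ∩ O t).Nonempty
    · obtain ⟨t', h1, h2⟩ := hpi t _ (hUo _) h
      exact ⟨t', Or.inl h2, h1⟩
    · refine ⟨t, Or.inr ?_, hrefl t⟩
      rw [Set.disjoint_iff_inter_eq_empty, Set.inter_comm]
      exact Set.not_nonempty_iff_eq_empty.mp h)
  have hdec : ∀ q : ℚ, O t ⊆ U q ∨ Disjoint (O t) (U q) := by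
    intro q
    obtain ⟨n, rfl⟩ := he q
    obtain ⟨t', ht', h1⟩ := ht n
    rcases ht' with h | h
    · exact Or.inl ((hmono _ _ h1).trans h)
    · exact Or.inr (h.mono_left (hmono _ _ h1))
  have hle : ∀ x ∈ D ∩ O t, ∀ y ∈ D ∩ O t, ¬ g (ρ x) < g (ρ y) := by
    intro x hx y hy hlt
    obtain ⟨q, hq1, hq2⟩ := exists_rat_btwn hlt
    have hxU : x ∈ U q := (hU q x hx.1).mpr hq1
    have hyU : y ∉ U q := fun h => absurd ((hU q y hy.1).mp h) (not_lt.mpr hq2.le)
    rcases hdec q with h | h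
    · exact hyU (h hy.2)
    · exact Set.disjoint_left.mp h hx.2 hxU
  obtain ⟨x₀, hx₀⟩ := hD.inter_open_nonempty _ (hopen t) (hne t)
  obtain ⟨t', ht', hne'⟩ := hρ t (ρ x₀)
  obtain ⟨y, hy⟩ := hD.inter_open_nonempty _ (hopen t') (hne t')
  have hyt : y ∈ D ∩ O t := ⟨hy.2, hmono _ _ ht' hy.1⟩
  have hxt : x₀ ∈ D ∩ O t := ⟨hx₀.2, hx₀.1⟩
  have : g (ρ y) = g (ρ x₀) :=
    le_antisymm (not_lt.mp (hle _ hxt _ hyt)) (not_lt.mp (hle _ hyt _ hxt))
  exact hne' y hy.1 (hg this)

/-! ### Part 2: combinatorics of a well-order of type `ω₁` -/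

section Omega1

variable {W : Type} [LinearOrder W] [WellFoundedLT W]

omit [WellFoundedLT W] in
theorem exists_strict_bound (hIic : ∀ a : W, (Iic a).Countable)
    (hunc : ¬ (univ : Set W).Countable) {C : Set W} (hC : C.Countable) :
    ∃ b, ∀ a ∈ C, a < b := by
  by_contra h
  push Not at h
  apply hunc
  have : (univ : Set W) ⊆ ⋃ a ∈ C, Iic a := by
    intro b _
    obtain ⟨a, ha, hab⟩ := h b
    simp only [mem_iUnion]
    exact ⟨a, ha, hab⟩
  exact (hC.biUnion fun a _ => hIic a).mono this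

theorem exists_isLUB (s : Set W) (hs : BddAbove s) : ∃ δ, IsLUB s δ := by
  obtain ⟨m, hm, hmin⟩ := WellFounded.has_min (wellFounded_lt (α := W)) (upperBounds s) hs
  exact ⟨m, hm, fun b hb => not_lt.mp (hmin b hb)⟩

theorem cof_ne (hIic : ∀ a : W, (Iic a).Countable)
    (hunc : ¬ (univ : Set W).Countable) : Order.cof W ≠ ℵ₀ := by
  intro h
  obtain ⟨s, hs, hs'⟩ := Order.exists_cof_eq W
  have hsc : s.Countable := by
    rw [← le_aleph0_iff_set_countable, hs', h]
  obtain ⟨b, hb⟩ := exists_strict_bound hIic hunc hsc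
  obtain ⟨y, hy, hby⟩ := hs b
  exact absurd (hb y hy) (not_lt.mpr hby)

theorem exists_bistationary (hIic : ∀ a : W, (Iic a).Countable)
    (hunc : ¬ (univ : Set W).Countable) (g : W → ℕ → Bool) (hg : Function.Injective g) :
    ∃ S : Set W, IsStationary S ∧ IsStationary Sᶜ := by
  by_contra hcon
  push Not at hcon
  have key : ∀ n, ∃ i : Bool, ∃ C : Set W, IsClub C ∧ ∀ a ∈ C, g a n = i := by
    intro n
    by_cases h : IsStationary {a | g a n = true}
    · have h2 := hcon _ h
      rw [not_isStationary_iff] at h2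
      obtain ⟨C, hC, hdis⟩ := h2
      refine ⟨true, C, hC, fun a ha => ?_⟩
      by_contra hne
      exact Set.disjoint_right.mp hdis ha hne
    · rw [not_isStationary_iff] at h
      obtain ⟨C, hC, hdis⟩ := h
      refine ⟨false, C, hC, fun a ha => ?_⟩
      have h1 : a ∉ {a | g a n = true} := Set.disjoint_right.mp hdis ha
      simpa using h1
  choose i C hC hi using key
  have hclub : IsClub (⋂ n, C n) := IsClub.iInter_of_countable (cof_ne hIic hunc) hC
  obtain ⟨b₀, -⟩ := exists_strict_bound hIic hunc (Set.countable_empty (α := W))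
  obtain ⟨a, ha, -⟩ := hclub.isCofinal b₀
  obtain ⟨b, hb⟩ := exists_strict_bound hIic hunc (Set.countable_singleton a)
  obtain ⟨c, hc, hbc⟩ := hclub.isCofinal b
  have hac : a = c := by
    apply hg
    funext n
    rw [hi n a (Set.mem_iInter.mp ha n), hi n c (Set.mem_iInter.mp hc n)]
  have := hb a rfl
  rw [← hac] at hbc
  exact absurd this (not_lt.mpr hbc)

theorem isClub_closure (hIic : ∀ a : W, (Iic a).Countable)
    (hunc : ¬ (univ : Set W).Countable) (h : List W → W) :
    IsClub {δ : W | ∀ σ : List W, (∀ a ∈ σ, a < δ) → h σ < δ} := by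
  constructor
  · intro d hd hne _ a ha σ hσ
    have : ∃ i ∈ d, ∀ b ∈ σ, b < i := by
      clear hd
      induction σ with
      | nil =>
        obtain ⟨i, hi⟩ := hne
        exact ⟨i, hi, by simp⟩
      | cons b σ ih =>
        obtain ⟨i, hi, hi'⟩ := ih (fun c hc => hσ c (List.mem_cons_of_mem _ hc))
        obtain ⟨j, hj, hbj⟩ := (lt_isLUB_iff ha).mp (hσ b (List.mem_cons_self))
        rcases le_total i j with hij | hij
        · refine ⟨j, hj, ?_⟩
          intro c hc
          rcases List.mem_cons.mp hc with rfl | hc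
          · exact hbj
          · exact (hi' c hc).trans_le hij
        · refine ⟨i, hi, ?_⟩
          intro c hc
          rcases List.mem_cons.mp hc with rfl | hc
          · exact hbj.trans_le hij
          · exact hi' c hc
    obtain ⟨i, hi, hi'⟩ := this
    exact (hd hi σ hi').trans_le (ha.1 hi)
  · intro a
    have hF : ∀ b : W, ∃ c, b < c ∧ ∀ σ : List W, (∀ a ∈ σ, a ≤ b) → h σ < c := by
      intro b
      have : Countable (Iic b) := (hIic b).to_subtype
      have hc : (range (fun σ : List (Iic b) => h (σ.map Subtype.val)) ∪ {b}).Countable :=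
        (countable_range _).union (countable_singleton b)
      obtain ⟨c, hc⟩ := exists_strict_bound hIic hunc hc
      refine ⟨c, hc b (Or.inr rfl), fun σ hσ => ?_⟩
      apply hc _ (Or.inl ?_)
      refine ⟨σ.attach.map (fun x => ⟨x.1, hσ x.1 x.2⟩), ?_⟩
      simp [List.map_map, Function.comp_def]
    choose F hF1 hF2 using hF
    let s : ℕ → W := fun n => F^[n] a
    have hs1 : ∀ n, s n < s (n + 1) := by
      intro n
      simp only [s, Function.iterate_succ_apply']
      exact hF1 _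
    have hsm : StrictMono s := strictMono_nat_of_lt_succ hs1
    obtain ⟨u, hu⟩ := exists_strict_bound hIic hunc (countable_range s)
    obtain ⟨δ, hδ⟩ := exists_isLUB (range s) ⟨u, fun b hb => (hu b hb).le⟩
    refine ⟨δ, ?_, hδ.1 ⟨0, rfl⟩⟩
    intro σ hσ
    have : ∃ n, ∀ b ∈ σ, b ≤ s n := by
      induction σ with
      | nil => exact ⟨0, by simp⟩
      | cons b σ ih =>
        obtain ⟨n, hn⟩ := ih (fun c hc => hσ c (List.mem_cons_of_mem _ hc))
        obtain ⟨_, ⟨m, rfl⟩, hbm⟩ := (lt_isLUB_iff hδ).mp (hσ b (List.mem_cons_self))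
        refine ⟨max n m, ?_⟩
        intro c hc
        rcases List.mem_cons.mp hc with rfl | hc
        · exact hbm.le.trans (hsm.monotone (le_max_right _ _))
        · exact (hn c hc).trans (hsm.monotone (le_max_left _ _))
    obtain ⟨n, hn⟩ := this
    have h1 : h σ < s (n + 1) := by
      simp only [s, Function.iterate_succ_apply']
      exact hF2 _ σ hn
    exact h1.trans_le (hδ.1 ⟨n + 1, rfl⟩)

end Omega1

/-! ### Part 3: the linear order `L` and its space of cuts -/

section Space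

variable {W : Type} [LinearOrder W] [WellFoundedLT W]

/-- The admissible functions: the support is contained in `S`, closed and bounded. -/
def Good (S : Set W) (x : W → ℤ) : Prop :=
  (∀ β, x β ≠ 0 → β ∈ S) ∧ DirSupClosed {β | x β ≠ 0} ∧ ∃ γ, ∀ β, x β ≠ 0 → β ≤ γ

/-- The linear order `L`. -/
def L (S : Set W) : Type := {x : Lex (W → ℤ) // Good S (ofLex x)}

noncomputable instance (S : Set W) : LinearOrder (L S) :=
  inferInstanceAs (LinearOrder {x : Lex (W → ℤ) // Good S (ofLex x)})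

/-- The underlying function of an element of `L`. -/
def fn {S : Set W} (x : L S) : W → ℤ := ofLex x.1

theorem fn_good {S : Set W} (x : L S) : Good S (fn x) := x.2

/-- The element of `L` with a given admissible underlying function. -/
def mkL {S : Set W} (x : W → ℤ) (hx : Good S x) : L S := ⟨toLex x, hx⟩

@[simp] theorem fn_mkL {S : Set W} (x : W → ℤ) (hx : Good S x) : fn (mkL x hx) = x := rfl

theorem lt_iff {S : Set W} (x y : L S) :
    x < y ↔ ∃ i, (∀ j < i, fn x j = fn y j) ∧ fn x i < fn y i := Iff.rfl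

theorem exists_first_diff (x y : W → ℤ) (γ : W) (h : ¬ ∀ β ≤ γ, x β = y β) :
    ∃ β ≤ γ, (∀ j < β, x j = y j) ∧ x β ≠ y β := by
  push Not at h
  obtain ⟨β, hβ, hne⟩ := h
  obtain ⟨m, hm, hmin⟩ := WellFounded.has_min (wellFounded_lt (α := W)) {β | x β ≠ y β} ⟨β, hne⟩
  refine ⟨m, (not_lt.mp (hmin β hne)).trans hβ, fun j hj => ?_, hm⟩
  by_contra hj'
  exact hmin j hj' hj

/-- Nodes of the tree. -/
abbrev T (S : Set W) : Type := L S × W

/-- `y` lies in the cone of the node `t`. -/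
def InCone {S : Set W} (t : T S) (y : L S) : Prop := ∀ β ≤ t.2, fn y β = fn t.1 β

/-- `t'` extends `t`. -/
def Ext {S : Set W} (t t' : T S) : Prop := t.2 ≤ t'.2 ∧ InCone t t'.1

theorem Ext.refl {S : Set W} (t : T S) : Ext t t := ⟨le_rfl, fun _ _ => rfl⟩

theorem Ext.trans {S : Set W} {t t' t'' : T S} (h : Ext t t') (h' : Ext t' t'') : Ext t t'' :=
  ⟨h.1.trans h'.1, fun β hβ => (h'.2 β (hβ.trans h.1)).trans (h.2 β hβ)⟩

theorem InCone.of_ext {S : Set W} {t t' : T S} (h : Ext t t') {y : L S} (hy : InCone t' y) :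
    InCone t y := fun β hβ => (hy β (hβ.trans h.1)).trans (h.2 β hβ)

/-- Cones are order-convex. -/
theorem InCone.convex {S : Set W} {t : T S} {c d z : L S} (hc : InCone t c) (hd : InCone t d)
    (hcz : c ≤ z) (hzd : z ≤ d) : InCone t z := by
  by_contra h
  obtain ⟨β, hβ, hlt, hne⟩ := exists_first_diff _ _ _ h
  rcases lt_or_gt_of_ne hne with h1 | h1
  · have : z < c := (lt_iff _ _).mpr
      ⟨β, fun j hj => (hlt j hj).trans (hc j (hj.le.trans hβ)).symm, by rw [hc β hβ]; exact h1⟩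
    exact absurd hcz (not_le.mpr this)
  · have : d < z := (lt_iff _ _).mpr
      ⟨β, fun j hj => (hd j (hj.le.trans hβ)).trans (hlt j hj).symm, by rw [hd β hβ]; exact h1⟩
    exact absurd hzd (not_le.mpr this)

/-- The open set of cuts splitting the cone of `t`. -/
def O {S : Set W} (t : T S) : Set (LowerSet (L S)) :=
  {A | ∃ c d, InCone t c ∧ InCone t d ∧ c ∈ A ∧ d ∉ A}

/-- The function `x + 1_γ`. -/
theorem good_update {S : Set W} (x : L S) (γ : W) (hγ : γ ∈ S) (hx : ∀ β, fn x β ≠ 0 → β < γ) :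
    Good S (fun β => if β = γ then 1 else fn x β) := by
  obtain ⟨h1, h2, h3⟩ := fn_good x
  refine ⟨?_, ?_, ?_⟩
  · intro β hβ
    by_cases h : β = γ
    · rw [h]; exact hγ
    · simp only [h, if_false] at hβ
      exact h1 β hβ
  · intro d hd hne hdir a ha
    by_cases hγd : γ ∈ d
    · have hle : ∀ β ∈ d, β ≤ γ := by
        intro β hβ
        by_cases h : β = γ
        · exact h.le
        · have h5 := hd hβ
          simp only [h, if_false, mem_ofPred_eq] at h5
          exact (hx β h5).le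
      have : a = γ := le_antisymm (ha.2 hle) (ha.1 hγd)
      simp [this]
    · have h5 : d ⊆ {β | fn x β ≠ 0} := by
        intro β hβ
        have h : β ≠ γ := fun h => hγd (h ▸ hβ)
        have h5 := hd hβ
        simpa only [h, if_false, mem_ofPred_eq] using h5
      have h6 : fn x a ≠ 0 := h2 h5 hne hdir ha
      have h7 : a ≠ γ := (hx a h6).ne
      simpa only [h7, if_false, mem_ofPred_eq] using h6
  · refine ⟨γ, fun β hβ => ?_⟩
    by_cases h : β = γ
    · exact h.le
    · simp only [h, if_false] at hβ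
      exact (hx β hβ).le

theorem good_zero (S : Set W) [Nonempty W] : Good S (fun _ => (0 : ℤ)) := by
  refine ⟨by simp, ?_, ?_⟩
  · intro d hd hne _ a _
    obtain ⟨b, hb⟩ := hne
    exact absurd rfl (hd hb)
  · exact ⟨Classical.arbitrary W, by simp⟩

theorem exists_large {S : Set W} (hS : ∀ b, ∃ γ ∈ S, b < γ) (x : L S) (a b : W) :
    ∃ γ ∈ S, a < γ ∧ b < γ ∧ ∀ β, fn x β ≠ 0 → β < γ := by
  obtain ⟨u, hu⟩ := (fn_good x).2.2
  obtain ⟨γ, hγ, h⟩ := hS (max (max a b) u)
  have h1 := max_lt_iff.mp h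
  have h2 := max_lt_iff.mp h1.1
  exact ⟨γ, hγ, h2.1, h2.2, fun β hβ => (hu β hβ).trans_lt h1.2⟩

theorem stationary_unbounded (hIic : ∀ a : W, (Iic a).Countable)
    (hunc : ¬ (univ : Set W).Countable) {S : Set W} (hS : IsStationary S) (b : W) :
    ∃ γ ∈ S, b < γ := by
  obtain ⟨c, hc⟩ := exists_strict_bound hIic hunc (Set.countable_singleton b)
  have hclub : IsClub (Ici c) := by
    constructor
    · intro d hd hne _ a ha
      obtain ⟨i, hi⟩ := hne
      exact le_trans (hd hi) (ha.1 hi)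
    · intro a
      exact ⟨max a c, le_max_right _ _, le_max_left _ _⟩
  obtain ⟨γ, h1, h2⟩ := hS hclub
  exact ⟨γ, h1, (hc b rfl).trans_le h2⟩

theorem Iio_lt_iff {α : Type} [LinearOrder α] (A : LowerSet α) (c : α) :
    LowerSet.Iio c < A ↔ c ∈ A := by
  constructor
  · intro h
    by_contra hc
    refine absurd h (not_lt.mpr ?_)
    intro z hz
    rw [LowerSet.coe_Iio, Set.mem_Iio]
    by_contra hzc
    exact hc (A.lower (not_lt.mp hzc) hz)
  · intro h
    refine lt_of_le_not_ge ?_ ?_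
    · intro z hz
      rw [LowerSet.coe_Iio, Set.mem_Iio] at hz
      exact A.lower hz.le h
    · intro hle
      have h1 := hle h
      rw [LowerSet.coe_Iio, Set.mem_Iio] at h1
      exact lt_irrefl _ h1

theorem lt_Iic_iff {α : Type} [LinearOrder α] (A : LowerSet α) (d : α) :
    A < LowerSet.Iic d ↔ d ∉ A := by
  constructor
  · intro h hd
    refine absurd h (not_lt.mpr ?_)
    intro z hz
    rw [LowerSet.coe_Iic, Set.mem_Iic] at hz
    exact A.lower hz hd
  · intro h
    refine lt_of_le_not_ge ?_ ?_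
    · intro z hz
      rw [LowerSet.coe_Iic, Set.mem_Iic]
      by_contra hzd
      exact h (A.lower (not_le.mp hzd).le hz)
    · intro hle
      exact h (hle (by rw [LowerSet.coe_Iic, Set.mem_Iic]))

theorem lt_of_mem_notMem {α : Type} [LinearOrder α] {A B : LowerSet α} {c : α} (h : c ∉ A)
    (h' : c ∈ B) : A < B := by
  rw [← not_le]
  intro hle
  exact h (hle h')

theorem isOpen_O {S : Set W} [TopologicalSpace (LowerSet (L S))] [OrderTopology (LowerSet (L S))]
    (t : T S) : IsOpen (O t) := by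
  rw [isOpen_iff_forall_mem_open]
  rintro A ⟨c, d, hc, hd, hcA, hdA⟩
  refine ⟨Ioi (LowerSet.Iio c) ∩ Iio (LowerSet.Iic d), ?_, isOpen_Ioi.inter isOpen_Iio, ?_⟩
  · rintro A' ⟨h1, h2⟩
    exact ⟨c, d, hc, hd, (Iio_lt_iff A' c).mp h1, (lt_Iic_iff A' d).mp h2⟩
  · exact ⟨(Iio_lt_iff A c).mpr hcA, (lt_Iic_iff A d).mpr hdA⟩

theorem O_nonempty {S : Set W} (hS : ∀ b, ∃ γ ∈ S, b < γ) (t : T S) : (O t).Nonempty := by
  obtain ⟨γ, hγS, hγ1, -, hγ3⟩ := exists_large hS t.1 t.2 t.2
  have hγ0 : fn t.1 γ = 0 := by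
    by_contra h
    exact lt_irrefl _ (hγ3 γ h)
  refine ⟨LowerSet.Iic t.1, t.1, mkL _ (good_update t.1 γ hγS hγ3), fun _ _ => rfl, ?_, ?_, ?_⟩
  · intro β hβ
    have : β ≠ γ := (hβ.trans_lt hγ1).ne
    simp [this]
  · simp
  · rw [LowerSet.mem_Iic_iff, not_le]
    refine (lt_iff _ _).mpr ⟨γ, fun j hj => ?_, ?_⟩
    · simp [hj.ne]
    · simp [hγ0]

theorem O_mono {S : Set W} (t t' : T S) (h : Ext t t') : O t' ⊆ O t := by
  rintro A ⟨c, d, hc, hd, hcA, hdA⟩
  exact ⟨c, d, hc.of_ext h, hd.of_ext h, hcA, hdA⟩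

theorem pi_base {S : Set W} (hS : ∀ b, ∃ γ ∈ S, b < γ) [TopologicalSpace (LowerSet (L S))]
    [OrderTopology (LowerSet (L S))] (t : T S) (U : Set (LowerSet (L S))) (hU : IsOpen U)
    (hne : (U ∩ O t).Nonempty) : ∃ t', Ext t t' ∧ O t' ⊆ U := by
  obtain ⟨A, hAU, c, d, hc, hd, hcA, hdA⟩ := hne
  obtain ⟨A₁, A₂, ⟨h1, h2⟩, hsub⟩ := (mem_nhds_iff_exists_Ioo_subset'
    ⟨_, (Iio_lt_iff A c).mpr hcA⟩ ⟨_, (lt_Iic_iff A d).mpr hdA⟩).mp (hU.mem_nhds hAU)
  obtain ⟨c₁, hc₁, hc₁'⟩ : ∃ c₁ ∈ A, c₁ ∉ A₁ := by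
    by_contra hcon
    push Not at hcon
    exact absurd h1 (not_lt.mpr hcon)
  obtain ⟨d₁, hd₁, hd₁'⟩ : ∃ d₁ ∈ A₂, d₁ ∉ A := by
    by_contra hcon
    push Not at hcon
    exact absurd h2 (not_lt.mpr hcon)
  have hc₂ : max c c₁ ∈ A := by
    rcases max_choice c c₁ with h | h <;> rw [h] <;> assumption
  have hd₂ : min d d₁ ∉ A := by
    rcases min_choice d d₁ with h | h <;> rw [h] <;> assumption
  have hlt : max c c₁ < min d d₁ := by
    by_contra hcon
    exact hd₂ (A.lower (not_lt.mp hcon) hc₂)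
  have hc₂' : max c c₁ ∉ A₁ := fun h => hc₁' (A₁.lower (le_max_right _ _) h)
  have hd₂' : min d d₁ ∈ A₂ := A₂.lower (min_le_right _ _) hd₁
  have hc₂t : InCone t (max c c₁) :=
    InCone.convex hc hd (le_max_left _ _) (hlt.le.trans (min_le_left _ _))
  generalize max c c₁ = c₂ at *
  generalize min d d₁ = d₂ at *
  obtain ⟨i, hi, hi'⟩ := (lt_iff _ _).mp hlt
  obtain ⟨γ, hγS, hγ1, hγ2, hγ3⟩ := exists_large hS c₂ t.2 i
  have hγ0 : fn c₂ γ = 0 := by
    by_contra h
    exact lt_irrefl _ (hγ3 γ h)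
  refine ⟨(mkL _ (good_update c₂ γ hγS hγ3), γ), ⟨hγ1.le, fun β hβ => ?_⟩, ?_⟩
  · have : β ≠ γ := (hβ.trans_lt hγ1).ne
    simp [this, hc₂t β hβ]
  · rintro A' ⟨c', d', hc', hd', hc'A, hd'A⟩
    have hcone : ∀ z : L S, InCone (mkL _ (good_update c₂ γ hγS hγ3), γ) z →
        (∀ j < γ, fn z j = fn c₂ j) ∧ fn z γ = 1 := by
      intro z hz
      refine ⟨fun j hj => ?_, ?_⟩
      · have := hz j hj.le
        simpa [hj.ne] using this
      · have := hz γ le_rfl
        simpa using this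
    have h3 : c₂ < c' := by
      obtain ⟨h5, h6⟩ := hcone c' hc'
      exact (lt_iff _ _).mpr ⟨γ, fun j hj => (h5 j hj).symm, by rw [h6, hγ0]; exact one_pos⟩
    have h4 : d' < d₂ := by
      obtain ⟨h5, h6⟩ := hcone d' hd'
      refine (lt_iff _ _).mpr ⟨i, fun j hj => ?_, ?_⟩
      · rw [h5 j (hj.trans hγ2), hi j hj]
      · rw [h5 i hγ2]; exact hi'
    apply hsub
    exact ⟨lt_of_mem_notMem hc₂' (A'.lower h3.le hc'A),
      lt_of_mem_notMem (fun h => hd'A (A'.lower h4.le h)) hd₂'⟩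

/-! ### Part 4: distributivity of the tree of cones -/

theorem distributive (hIic : ∀ a : W, (Iic a).Countable)
    (hunc : ¬ (univ : Set W).Countable) {S : Set W} (hS : IsStationary S) (t₀ : T S)
    (E : ℕ → Set (T S)) (hE : ∀ n t, ∃ t' ∈ E n, Ext t t') :
    ∃ t, ∀ n, ∃ t' ∈ E n, Ext t' t := by
  have h1 : ∀ (n : ℕ) (δ : W) (t : T S), ∃ t' ∈ E n, Ext t t' ∧ δ < t'.2 := by
    intro n δ t
    obtain ⟨γ, hγ⟩ := exists_strict_bound hIic hunc (C := {δ, t.2}) (by simp)
    obtain ⟨t', ht', hext⟩ := hE n (t.1, γ)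
    refine ⟨t', ht', Ext.trans (t' := (t.1, γ)) ⟨(hγ t.2 (by simp)).le, fun _ _ => rfl⟩ hext, ?_⟩
    exact (hγ δ (by simp)).trans_le hext.1
  choose e he1 he2 he3 using h1
  let node : List W → T S := fun σ =>
    List.rec (motive := fun _ => T S) t₀ (fun δ σ t => e σ.length δ t) σ
  have hnode : ∀ δ σ, node (δ :: σ) = e σ.length δ (node σ) := fun _ _ => rfl
  obtain ⟨δ, hδS, hδC⟩ := hS (isClub_closure hIic hunc (fun σ => (node σ).2))
  have hne : (Iio δ).Nonempty := ⟨t₀.2, hδC [] (by simp)⟩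
  obtain ⟨f, hf⟩ := ((hIic δ).mono Iio_subset_Iic_self).exists_eq_range hne
  let σ : ℕ → List W := fun n => Nat.rec [] (fun k l => f k :: l) n
  have hσ : ∀ n, σ (n + 1) = f n :: σ n := fun _ => rfl
  have hσlen : ∀ n, (σ n).length = n := by
    intro n
    induction n with
    | zero => rfl
    | succ n ih => rw [hσ, List.length_cons, ih]
  have hσmem : ∀ n, ∀ a ∈ σ n, a < δ := by
    intro n
    induction n with
    | zero => intro a ha; simp [σ] at ha
    | succ n ih =>
      intro a ha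
      rw [hσ] at ha
      rcases List.mem_cons.mp ha with rfl | ha
      · have : f n ∈ Iio δ := by rw [hf]; exact ⟨n, rfl⟩
        exact this
      · exact ih a ha
  let t : ℕ → T S := fun n => node (σ n)
  have ht : ∀ n, t (n + 1) = e n (f n) (t n) := by
    intro n
    simp only [t, hσ, hnode, hσlen]
  have htE : ∀ n, t (n + 1) ∈ E n := fun n => by rw [ht]; exact he1 _ _ _
  have htext : ∀ n, Ext (t n) (t (n + 1)) := fun n => by rw [ht]; exact he2 _ _ _
  have htgt : ∀ n, f n < (t (n + 1)).2 := fun n => by rw [ht]; exact he3 _ _ _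
  have htlt : ∀ n, (t n).2 < δ := fun n => hδC (σ n) (hσmem n)
  have htmono : ∀ n m, n ≤ m → Ext (t n) (t m) := by
    intro n m hnm
    induction m, hnm using Nat.le_induction with
    | base => exact Ext.refl _
    | succ m _ ih => exact ih.trans (htext m)
  have hN : ∀ β, ∃ n, β < δ → β ≤ (t n).2 := by
    intro β
    by_cases h : β < δ
    · have : β ∈ range f := by rw [← hf]; exact h
      obtain ⟨n, rfl⟩ := this
      exact ⟨n + 1, fun _ => (htgt n).le⟩
    · exact ⟨0, fun h' => absurd h' h⟩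
  choose N hN using hN
  let x : W → ℤ := fun β => if β < δ then fn (t (N β)).1 β else if β = δ then 1 else 0
  have hx : ∀ n β, β ≤ (t n).2 → x β = fn (t n).1 β := by
    intro n β hβ
    have hβδ : β < δ := hβ.trans_lt (htlt n)
    simp only [x, hβδ, if_true]
    rcases le_total (N β) n with h | h
    · exact ((htmono _ _ h).2 β (hN β hβδ)).symm
    · exact (htmono _ _ h).2 β hβ
  have hgood : Good S x := by
    refine ⟨?_, ?_, ?_⟩
    · intro β hβ
      by_cases h : β < δ
      · rw [hx (N β) β (hN β h)] at hβ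
        exact (fn_good _).1 β hβ
      · by_cases h' : β = δ
        · rw [h']; exact hδS
        · simp [x, h, h'] at hβ
    · intro d hd hne hdir a ha
      have hle : ∀ β ∈ d, β ≤ δ := by
        intro β hβ
        by_contra hcon
        have h5 : x β ≠ 0 := hd hβ
        rw [not_le] at hcon
        simp [x, hcon.not_gt, hcon.ne'] at h5
      have haδ : a ≤ δ := ha.2 hle
      rcases haδ.lt_or_eq with h | h
      · have h5 : d ⊆ {β | fn (t (N a)).1 β ≠ 0} := by
          intro β hβ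
          have h6 : x β ≠ 0 := hd hβ
          rw [hx (N a) β ((ha.1 hβ).trans (hN a h))] at h6
          exact h6
        have h6 : fn (t (N a)).1 a ≠ 0 := (fn_good _).2.1 h5 hne hdir ha
        show x a ≠ 0
        rw [hx (N a) a (hN a h)]
        exact h6
      · show x a ≠ 0
        simp [x, h]
    · refine ⟨δ, fun β hβ => ?_⟩
      by_contra hcon
      rw [not_le] at hcon
      simp [x, hcon.not_gt, hcon.ne'] at hβ
  refine ⟨(mkL x hgood, δ), fun n => ⟨t (n + 1), htE n, (htlt (n + 1)).le, fun β hβ => ?_⟩⟩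
  rw [fn_mkL]
  exact hx (n + 1) β hβ

/-! ### Part 5: the rank of a cut -/

/-- The support of the path of a cut. -/
def B {S : Set W} (A : LowerSet (L S)) : Set W :=
  {γ | ∃ c d : L S, c ∈ A ∧ d ∉ A ∧ (∀ β ≤ γ, fn c β = fn d β) ∧ fn c γ ≠ 0}

theorem coherent {S : Set W} (A : LowerSet (L S)) {c d c' d' : L S} {γ γ' : W}
    (hc : c ∈ A) (hd : d ∉ A) (h : ∀ β ≤ γ, fn c β = fn d β)
    (hc' : c' ∈ A) (hd' : d' ∉ A) (h' : ∀ β ≤ γ', fn c' β = fn d' β) (hγ : γ ≤ γ') :
    ∀ β ≤ γ, fn c β = fn c' β := by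
  by_contra hcon
  obtain ⟨β, hβ, hlt, hne⟩ := exists_first_diff _ _ _ hcon
  rcases lt_or_gt_of_ne hne with h1 | h1
  · have : d < c' := (lt_iff _ _).mpr
      ⟨β, fun j hj => ((h j (hj.le.trans hβ)).symm).trans (hlt j hj), by
        rw [← h β hβ]; exact h1⟩
    exact hd (A.lower this.le hc')
  · have : d' < c := (lt_iff _ _).mpr
      ⟨β, fun j hj => ((h' j (hj.le.trans (hβ.trans hγ))).symm).trans (hlt j hj).symm, by
        rw [← h' β (hβ.trans hγ)]; exact h1⟩
    exact hd' (A.lower this.le hc)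

theorem B_bounded {S : Set W} (hS' : IsStationary Sᶜ) (A : LowerSet (L S)) :
    ∃ γ, ∀ β ∈ B A, β < γ := by
  by_contra hcon
  push Not at hcon
  have hclub : IsClub (B A) := by
    refine ⟨?_, fun γ => hcon γ⟩
    intro d hd hne hdir a ha
    obtain ⟨γ', ⟨c', d', hc', hd', h', -⟩, haγ⟩ := hcon a
    have h4 : d ⊆ {β | fn c' β ≠ 0} := by
      intro β hβ
      obtain ⟨c, d₁, hc, hd₁, h, hne0⟩ := hd hβ
      have hβγ : β ≤ γ' := (ha.1 hβ).trans haγ
      have h6 := coherent A hc hd₁ h hc' hd' h' hβγ β le_rfl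
      show fn c' β ≠ 0
      rw [← h6]
      exact hne0
    have h5 : fn c' a ≠ 0 := (fn_good c').2.1 h4 hne hdir ha
    exact ⟨c', d', hc', hd', fun β hβ => h' β (hβ.trans haγ), h5⟩
  obtain ⟨β, hβ1, c, d, -, -, -, hne0⟩ := hS' hclub
  exact hβ1 ((fn_good c).1 β hne0)

theorem rank_avoid {S : Set W} (hS : ∀ b, ∃ γ ∈ S, b < γ) (ρ : LowerSet (L S) → W)
    (hρ : ∀ A, ∀ β ∈ B A, β < ρ A) (t : T S) (α : W) :
    ∃ t', Ext t t' ∧ ∀ A ∈ O t', ρ A ≠ α := by
  obtain ⟨γ, hγS, hγ1, hγ2, hγ3⟩ := exists_large hS t.1 t.2 α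
  refine ⟨(mkL _ (good_update t.1 γ hγS hγ3), γ), ⟨hγ1.le, fun β hβ => ?_⟩, ?_⟩
  · have : β ≠ γ := (hβ.trans_lt hγ1).ne
    simp [this]
  · rintro A ⟨c, d, hc, hd, hcA, hdA⟩
    have hmem : γ ∈ B A := by
      refine ⟨c, d, hcA, hdA, fun β hβ => (hc β hβ).trans (hd β hβ).symm, ?_⟩
      have := hc γ le_rfl
      simp at this
      rw [this]
      exact one_ne_zero
    exact (hγ2.trans (hρ A γ hmem)).ne'

end Space

/-- **Main theorem.** There is a nonempty compact linearly ordered topological space `X` and a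
function `f : X → ℝ` such that `f` restricted to `D` is discontinuous for every dense `D ⊆ X`. -/
theorem result : ∃ (X : Type) (_ : LinearOrder X) (_ : TopologicalSpace X),
    OrderTopology X ∧ CompactSpace X ∧
      ∃ f : X → ℝ, ∀ D : Set X, Dense D → ¬ Continuous (fun x : D => f x) := by
  let W : Type := (Cardinal.aleph 1).ord.ToType
  have hcard : #W = Cardinal.aleph 1 := Cardinal.mk_ord_toType _
  have hIic : ∀ a : W, (Iic a).Countable := by
    intro a
    have h1 : #(Iio a) < Cardinal.aleph 1 := by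
      have h3 := Cardinal.mk_Iio_lt a (by rw [hcard, Ordinal.type_toType])
      rwa [hcard] at h3
    have h2 : (Iio a).Countable := by
      rw [← le_aleph0_iff_set_countable]
      have h4 : Cardinal.aleph 1 = Order.succ ℵ₀ := Cardinal.succ_aleph0.symm
      exact Order.lt_succ_iff.mp (h1.trans_eq h4)
    rw [← Set.Iio_insert]
    exact h2.insert a
  have hunc : ¬ (univ : Set W).Countable := by
    rw [← le_aleph0_iff_set_countable, Cardinal.mk_univ, hcard, not_le]
    exact Cardinal.aleph0_lt_aleph_one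
  have hR : #W ≤ #ℝ := by
    rw [hcard, Cardinal.mk_real]
    exact Cardinal.aleph_one_le_continuum
  have hB : #W ≤ #(ℕ → Bool) := by
    rw [hcard]
    simpa using Cardinal.aleph_one_le_continuum
  obtain ⟨g, hg⟩ := hR
  obtain ⟨g', hg'⟩ := hB
  obtain ⟨S, hS, hS'⟩ := exists_bistationary hIic hunc g' hg'
  have hSu : ∀ b, ∃ γ ∈ S, b < γ := stationary_unbounded hIic hunc hS
  let top : TopologicalSpace (LowerSet (L S)) := Preorder.topology _
  have : OrderTopology (LowerSet (L S)) := ⟨rfl⟩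
  have : Nonempty W := ⟨(exists_strict_bound hIic hunc (Set.countable_empty (α := W))).choose⟩
  choose ρ hρ using B_bounded hS'
  have t₀ : T S := (mkL _ (good_zero S), Classical.arbitrary W)
  refine ⟨LowerSet (L S), inferInstance, top, inferInstance, inferInstance,
    fun A => g (ρ A), ?_⟩
  exact criterion Ext O Ext.refl isOpen_O (O_nonempty hSu) O_mono (pi_base hSu)
    (fun E hE => distributive hIic hunc hS t₀ E hE) ρ (rank_avoid hSu ρ hρ) g hg

end Pool.Agent.Results.MP_184855_gt.CompactLOTSNonBlumberg
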